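import Pool.Agent.helper50.NPT.Spec3

/-!
# Row npt:SPC (MP_8f32d0_ag): specialisation of the curve to an arbitrary algebraically closed field
-/

set_option autoImplicit false

namespace NPT

open scoped Classical
open AN
open Pool.Agent.helper53.AU

noncomputable section

theorem SPC_MN {R S : Type} [CommRing R] [CommRing S] (p : ℕ) (φ : R →+* S) {g : ℕ}
    (H : Matrix (Fin g) (Fin g) R) (n : ℕ) : MN p (H.map φ) n = (MN p H n).map φ := by
  induction n with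
  | zero =>
    show (1 : Matrix (Fin g) (Fin g) S) = (1 : Matrix (Fin g) (Fin g) R).map φ
    rw [Matrix.map_one φ (map_zero φ) (map_one φ)]
  | succ n ih =>
    show H.map φ * frM p (MN p (H.map φ) n) = (H * frM p (MN p H n)).map φ
    rw [ih, Matrix.map_mul]
    congr 1
    ext i j
    simp [frM]

theorem SPC_x (hKB : KB_stmt) (hOMT : OMT_stmt) (p : ℕ) [hp : Fact p.Prime] {K : Type} [Field K] [CharP K p]
    {g : ℕ} {γ : Fin g → ℕ} {a : ℕ → LS K} (hK : IsK γ a) (T : Cert p γ a) (ht : T.tau ≠ 0) : T.x ≠ 0 := by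
  intro hx
  apply ht
  obtain ⟨-, -, kb3, -, -, -, -, -⟩ := hKB K g γ a hK
  obtain ⟨-, -, -, ddz, -, -, -, -, -, -, -⟩ := hOMT p K g γ a hK T
  have h0 : ee γ T.x = 0 := by
    rw [hx]
    unfold ee
    refine Finset.sum_eq_zero fun j _ => ?_
    rw [Pi.zero_apply, mono_zero]
  have h1 := T.e1
  rw [h0, zero_pow hp.out.ne_zero] at h1
  have h2 : T.g0 ∈ PS K := by
    have h3 : T.g0 = -T.o0 := eq_neg_of_add_eq_zero_left h1.symm
    rw [h3]
    exact Submodule.neg_mem _ T.ho0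
  obtain ⟨c, hc⟩ := kb3 _ T.hg0 h2
  have hw : T.w = 0 := by
    show dd T.g0 = 0
    rw [hc, dd_C]
  have hdz : dd (P2 p T.g0 T.o0) = 0 := by rw [ddz, hw, mul_zero]
  have hom : T.om2 = dd T.al := by
    show T.g0 ^ (p - 1) * T.w + dd T.al = _
    rw [hw, mul_zero, zero_add]
  have ht0 : T.tau0 = 0 := by
    show res (P2 p T.g0 T.o0 * T.om2) = 0
    rw [hom]
    have h4 : P2 p T.g0 T.o0 * dd T.al = dd (P2 p T.g0 T.o0 * T.al) := by
      rw [dd_mul, hdz, zero_mul, zero_add]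
    rw [h4, res_dd]
  have hr : T.rho = 0 := by
    show res (P3 p (ee γ T.x) (-T.a1) (-T.o1) * T.w) = 0
    rw [hw, mul_zero, res_zero]
  show T.tau0 + T.rho ^ p = 0
  rw [ht0, hr, zero_pow hp.out.ne_zero, add_zero]

/-- a second place -/
theorem SPC_place {K F : Type} [Field K] [IsAlgClosed K] [Field F] [Algebra K F] (hFF : IsFF K F) (P₀ : Place K F)
    (ι : F →+* LS K) (hι : Lau P₀ ι) (n : ℕ) (hn : 0 < n) (x : F) (hx : ι x = mono (-(n : ℤ)) 1) :
    ∃ Q : Place K F, P₀ ≠ Q := by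
  by_contra hcon
  push Not at hcon
  have hx0 : x ≠ 0 := by
    rintro rfl
    rw [map_zero] at hx
    have h1 : cf (0 : LS K) (-(n : ℤ)) = cf (mono (-(n : ℤ)) (1 : K)) (-(n : ℤ)) := by rw [hx]
    rw [cf_zero, cf_mono, if_pos rfl] at h1
    exact zero_ne_one h1
  have hord : P₀.ord x = -(n : ℤ) := by
    have h1 := hι.ne x hx0
    rw [hx, cf_mono] at h1
    by_contra h2
    exact h1 (if_neg h2)
  have h3 := aQV5 K F hFF x hx0
  rw [finsum_eq_single _ P₀ (fun Q hQ => absurd (hcon Q).symm hQ), hord] at h3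
  omega

theorem SPC (hZD : ZD_stmt) (hCOO : COO_stmt) (hFS2 : FS2_stmt) (hFG : FG_stmt) (hFH2 : FH2_stmt)
    (hFVC : FVC_stmt) (hFVD : FVD_stmt) (hSPR : SPR_stmt) (hBC : BC_stmt) (hCEX : CEX_stmt) (hCMP : CMP_stmt)
    (hTTE : TTE_stmt) (hEA2 : EA2_stmt) (hNUL : NUL_stmt) (hZA : ZA_stmt) (hZB : ZB_stmt) (hZB0 : ZB0_stmt)
    (hZB1 : ZB1_stmt) (hFH1 : FH1_stmt) (hZR : ZR_stmt) (hKB : KB_stmt) (hOMT : OMT_stmt) : SPC_stmt := by
  intro p hp K F _ _ _ _ _ g hg hGood k _ _ _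
  obtain ⟨hFF, hgen, hpr, han, hFV⟩ := hGood
  obtain ⟨P₀⟩ := hZD K F hFF
  obtain ⟨ι, n, x, hι, hn0, hn, hx, hιx⟩ := hCOO p K F hFF P₀
  obtain ⟨γ, a, hK, hGE, hreg⟩ := hFS2 p K F hFF g hgen P₀ ι hι
  have hxA : mono (-(n : ℤ)) (1 : K) ∈ AA γ a := (hreg _).2 ⟨x, hx, hιx.symm⟩
  obtain ⟨Q, hQ⟩ := SPC_place hFF P₀ ι hι n hn0 x hιx
  -- spreading out
  obtain ⟨Sg, hSg⟩ := hSPR K g γ a hK hGE n hn0 hn hxA
  set R : Subring K := Subring.closure (Sg : Set K) with hRdef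
  obtain ⟨A, hA, hAa⟩ := hSg R (fun y hy => Subring.subset_closure hy)
  have hinj : Function.Injective R.subtype := Subtype.coe_injective
  have hcR : CharP R p := by
    constructor
    intro m
    rw [← CharP.cast_eq_zero_iff K p m]
    constructor
    · intro h
      have h1 := congrArg R.subtype h
      rwa [map_natCast, map_zero] at h1
    · intro h
      apply hinj
      rw [map_natCast, map_zero]
      exact h
  have hB := hBC R K R.subtype g 0 γ A (fun _ => 0) (fun _ => 0) hA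
  have hK2 := hB.1
  have hHW := hB.2.2.2.1 p
  have hAA : AA γ (fun r => mp R.subtype (A r)) = AA γ a := by
    have h1 : {y : LS K | ∃ r, ¬ Gp γ r ∧ y = mp R.subtype (A r)} = {y : LS K | ∃ r, ¬ Gp γ r ∧ y = a r} := by
      ext y
      constructor
      · rintro ⟨r, h2, h3⟩
        exact ⟨r, h2, h3.trans (hAa r h2)⟩
      · rintro ⟨r, h2, h3⟩
        exact ⟨r, h2, h3.trans (hAa r h2).symm⟩
    unfold AA
    rw [h1]
  have hreg2 : ∀ y : LS K, y ∈ AA γ (fun r => mp R.subtype (A r)) ↔ ∃ f ∈ Reg P₀, y = ι f := by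
    rw [hAA]
    exact hreg
  have hnil := hFG p K F hFF P₀ ι hι g γ _ hK2 hreg2 hpr
  have hrk := hFH2 p K F hFF P₀ ι hι g γ _ hK2 hreg2
  have hrk2 : g ≤ (HW p γ (fun r => mp R.subtype (A r))).rank + 1 := by omega
  have hLV : ¬ LV p γ (fun r => mp R.subtype (A r)) (2 * g - 2) 2 := fun h =>
    hFV P₀ Q hQ ((hFVC p K F hFF P₀ Q hQ ι hι g γ _ hK2 hreg2 _ _).2 h)
  have hMNR : MN p (HW p γ A) g = 0 := by
    have h1 : (MN p (HW p γ A) g).map R.subtype = 0 := by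
      rw [← SPC_MN, ← hHW]
      exact hnil
    ext i j
    have h2 := congrFun (congrFun h1 i) j
    have h3 : R.subtype (MN p (HW p γ A) g i j) = R.subtype 0 := by
      rw [map_zero]
      exact h2
    exact congrArg Subtype.val (hinj h3)
  have hrkR : g ≤ ((HW p γ A).map R.subtype).rank + 1 := by
    rw [← hHW]
    exact hrk2
  obtain ⟨T, hTx⟩ := hCEX p R g γ A hA (by omega) hMNR K R.subtype hinj hrkR
  obtain ⟨TK, hTK, hTKx⟩ := hCMP p R K R.subtype g γ A hA T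
  have hTK0 : TK.x ≠ 0 := by
    intro h
    apply hTx
    funext j
    apply hinj
    rw [← hTKx j, h]
    show (0 : K) = R.subtype 0
    rw [map_zero]
  have htauK : TK.tau ≠ 0 := fun h =>
    hLV ((hTTE p K g γ _ hK2 (by omega) hnil hrk2 TK hTK0).2 h)
  have htau : T.tau ≠ 0 := fun h => htauK (by rw [hTK, h, map_zero])
  obtain ⟨μ, hμ, hμ2⟩ := hEA2 R K R.subtype g (HW p γ A) hrkR
  have hμ0 : μ ≠ 0 := fun h => hμ (by rw [h, map_zero])
  -- specialisation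
  obtain ⟨χ, hχ⟩ := hNUL p K Sg (T.tau * μ) (mul_ne_zero htau hμ0) k
  rw [map_mul] at hχ
  have hχ1 : χ T.tau ≠ 0 := left_ne_zero_of_mul hχ
  have hχ2 : χ μ ≠ 0 := right_ne_zero_of_mul hχ
  have hB3 := hBC R k χ g 0 γ A (fun _ => 0) (fun _ => 0) hA
  have hK3 := hB3.1
  have hHW3 := hB3.2.2.2.1 p
  have hMN3 : MN p (HW p γ (fun r => mp χ (A r))) g = 0 := by
    rw [hHW3, SPC_MN, hMNR, Matrix.map_zero _ (map_zero _)]
  have hrk3 : g ≤ (HW p γ (fun r => mp χ (A r))).rank + 1 := by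
    rw [hHW3]
    exact hμ2 k χ hχ2
  obtain ⟨T3, hT3, -⟩ := hCMP p R k χ g γ A hA T
  have htau3 : T3.tau ≠ 0 := by rw [hT3]; exact hχ1
  have hLV3 : ¬ LV p γ (fun r => mp χ (A r)) (2 * g - 2) 2 := fun h =>
    htau3 ((hTTE p k g γ _ hK3 (by omega) hMN3 hrk3 T3 (SPC_x hKB hOMT p hK3 T3 htau3)).1 h)
  obtain ⟨P₁, hP₁⟩ := hZB0 k g γ _ hK3
  have hreg' := hZB1 p k g γ _ hK3 P₁ hP₁
  have hFF' := hZA k g γ _ hK3
  have hgen' := hZB p k g γ _ hK3
  refine ⟨EF γ (fun r => mp χ (A r)), inferInstance, inferInstance, hFF', hgen', ?_, ?_, ?_⟩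
  · exact hFH1 p _ _ hFF' P₁ _ hP₁ g γ _ hK3 hreg' hMN3
  · have h1 := hFH2 p _ _ hFF' P₁ _ hP₁ g γ _ hK3 hreg'
    have h2 := hZR p _ g _ (by omega) hMN3
    omega
  · intro P Q₁ hPQ hn
    have hex : ∃ Q' : Place k (EF γ (fun r => mp χ (A r))), P₁ ≠ Q' := by
      by_contra hcon
      push Not at hcon
      exact hPQ ((hcon P).symm.trans (hcon Q₁))
    obtain ⟨Q', hQ'⟩ := hex
    have h5 := (hFVD p _ _ hFF' g hgen' P Q₁ P₁ Q' hPQ hQ' (2 * g - 2) 2).mp hn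
    have h6 := (hFVC p _ _ hFF' P₁ Q' hQ' _ hP₁ g γ _ hK3 hreg' (2 * g - 2) 2).mp h5
    exact hLV3 h6

end

end NPT
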